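import Pool.Agent.H47.PL.Targets2

/-!
Row WGN of pln_modules: the numbers.
-/

set_option autoImplicit false

namespace Pool.Agent.H72.PL

open Finset Pool.Agent.H97.RK Pool.Agent.H47.PL

theorem exp_le_one_sub {x : ℝ} (h0 : 0 ≤ x) (h1 : x ≤ 1 / 2) :
    Real.exp (-x - 2 * x ^ 2) ≤ 1 - x := by
  have hpos : 0 < 1 - x := by linarith
  rw [← Real.le_log_iff_exp_le hpos]
  have h2 := Real.one_sub_inv_le_log_of_pos hpos
  refine le_trans ?_ h2
  have h3 : 1 - (1 - x)⁻¹ = -x / (1 - x) := by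
    field_simp
    ring
  rw [h3, le_div_iff₀ hpos]
  nlinarith [sq_nonneg x, mul_nonneg h0 (sq_nonneg x)]

theorem main_bound {δ θ β x : ℝ} {n k m : ℕ} (hθ0 : 0 < θ) (hθ1 : θ ≤ 1 / 10)
    (hθ2 : θ ≤ δ / 16) (hx : x = (1 / 2 : ℝ) ^ k) (hx1 : x ≤ 1 / 2) (hx2 : x ≤ δ / 16)
    (hβ1 : 1 - θ ≤ β) (hβ2 : β ≤ 1) :
    (1 - (1 - θ) * β / 2 ^ k) ^ m ≤ Real.exp ((δ / 4) * n) * guess n k m := by
  have hx0 : 0 < x := by rw [hx]; positivity
  have hn0 : (0 : ℝ) ≤ n := Nat.cast_nonneg _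
  have hm0 : (0 : ℝ) ≤ m := Nat.cast_nonneg _
  have hδ : 0 < δ := by linarith
  set u : ℝ := (1 - θ) * β with hu
  have hu1 : 1 - 2 * θ ≤ u := by rw [hu]; nlinarith
  have hu2 : u ≤ 1 := by rw [hu]; nlinarith
  have hdiv : (1 - θ) * β / 2 ^ k = u * x := by
    rw [hx, one_div, inv_pow, hu, div_eq_mul_inv]
  rw [hdiv]
  have hux : u * x ≤ 1 := by nlinarith
  have h1 : (1 - u * x) ^ m ≤ Real.exp (-(m * (u * x))) := by
    have h2 : 1 - u * x ≤ Real.exp (-(u * x)) := by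
      have := Real.add_one_le_exp (-(u * x))
      linarith
    calc (1 - u * x) ^ m ≤ (Real.exp (-(u * x))) ^ m := pow_le_pow_left₀ (by linarith) h2 m
      _ = Real.exp (-(m * (u * x))) := by
        rw [← Real.exp_nat_mul]
        congr 1
        ring
  have hmx0 : 0 ≤ (m : ℝ) * x := mul_nonneg hm0 hx0.le
  have hg1 : (1 - x) ^ m ≤ guess n k m := by
    unfold guess
    rw [← hx]
    have : (0 : ℝ) ≤ (1 / 2) ^ n := by positivity
    linarith
  have hg2 : (1 / 2 : ℝ) ^ n ≤ guess n k m := by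
    unfold guess
    rw [← hx]
    have : (0 : ℝ) ≤ (1 - x) ^ m := pow_nonneg (by linarith) _
    linarith
  have hg0 : 0 ≤ guess n k m := le_trans (by positivity) hg2
  refine h1.trans ?_
  rcases le_or_gt ((m : ℝ) * x) n with hc | hc
  · have h3 : Real.exp (-(m * x) - 2 * (m * x ^ 2)) ≤ (1 - x) ^ m := by
      calc Real.exp (-(m * x) - 2 * (m * x ^ 2)) = (Real.exp (-x - 2 * x ^ 2)) ^ m := by
            rw [← Real.exp_nat_mul]
            congr 1
            ring
        _ ≤ (1 - x) ^ m := pow_le_pow_left₀ (Real.exp_pos _).le (exp_le_one_sub hx0.le hx1) m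
    calc Real.exp (-(m * (u * x)))
        ≤ Real.exp ((δ / 4) * n + (-(m * x) - 2 * (m * x ^ 2))) := by
          refine Real.exp_le_exp.2 ?_
          have e1 : -(m * (u * x)) ≤ -(m * x) + 2 * θ * (m * x) := by nlinarith
          have e2 : 2 * θ * (m * x) ≤ (δ / 8) * n := by nlinarith
          have e3 : 2 * ((m : ℝ) * x ^ 2) ≤ (δ / 8) * n := by
            have : (m : ℝ) * x ^ 2 = (m * x) * x := by ring
            rw [this]
            nlinarith
          linarith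
      _ = Real.exp ((δ / 4) * n) * Real.exp (-(m * x) - 2 * (m * x ^ 2)) := Real.exp_add _ _
      _ ≤ Real.exp ((δ / 4) * n) * guess n k m :=
          mul_le_mul_of_nonneg_left (h3.trans hg1) (Real.exp_pos _).le
  · have hlog := Real.log_two_lt_d9
    have h3 : Real.exp (-(m * (u * x))) ≤ (1 / 2 : ℝ) ^ n := by
      have h4 : (1 / 2 : ℝ) ^ n = Real.exp (-(n * Real.log 2)) := by
        rw [Real.exp_neg, mul_comm, ← Real.rpow_def_of_pos (by norm_num), Real.rpow_natCast,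
          one_div, inv_pow]
      rw [h4]
      refine Real.exp_le_exp.2 ?_
      have e1 : (4 / 5 : ℝ) ≤ u := by linarith
      have e2 : (4 / 5) * (m * x) ≤ m * (u * x) := by nlinarith
      nlinarith
    have h5 : 1 ≤ Real.exp ((δ / 4) * n) := Real.one_le_exp (by positivity)
    calc Real.exp (-(m * (u * x))) ≤ guess n k m := h3.trans hg2
      _ ≤ Real.exp ((δ / 4) * n) * guess n k m := by nlinarith

theorem pf_WGN : T_WGN := by
  intro δ hδ
  set θ : ℝ := min (1 / 10) (δ / 16) with hθ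
  have hθ0 : 0 < θ := lt_min (by norm_num) (by positivity)
  have hθ1 : θ ≤ 1 / 10 := min_le_left _ _
  have hθ2 : θ ≤ δ / 16 := min_le_right _ _
  have hlog2 : 0 < Real.log 2 := Real.log_pos (by norm_num)
  have hlog2' := Real.log_two_gt_d9
  set l : ℝ := -Real.log θ with hl
  have hlpos : 0 < l := by
    have := Real.log_neg hθ0 (by linarith)
    rw [hl]
    linarith
  set η : ℝ := (δ / 4) * Real.log 2 / l with hη
  have hη0 : 0 < η := by positivity
  obtain ⟨K₂, hK₂⟩ := exists_pow_lt_of_lt_one (show (0 : ℝ) < δ / 16 by positivity)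
    (show (1 / 2 : ℝ) < 1 by norm_num)
  set K₁ : ℕ := ⌈l / ((δ / 4) * Real.log 2)⌉₊ with hK₁
  refine ⟨θ, η, hθ0, by linarith, hη0, max (max K₁ K₂) 1, le_max_right _ _, ?_⟩
  intro K' k n m w β _ hk hn _ hw hβ1 hβ2
  have hk1 : 1 ≤ k := (le_max_right _ _).trans hk
  have hk2 : K₂ ≤ k := ((le_max_right _ _).trans (le_max_left _ _)).trans hk
  have hn1 : K₁ ≤ n := ((le_max_left _ _).trans (le_max_left _ _)).trans hn
  have hx1 : (1 / 2 : ℝ) ^ k ≤ 1 / 2 := by
    calc (1 / 2 : ℝ) ^ k ≤ (1 / 2) ^ 1 :=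
          pow_le_pow_of_le_one (by norm_num) (by norm_num) hk1
      _ = 1 / 2 := pow_one _
  have hx2 : (1 / 2 : ℝ) ^ k ≤ δ / 16 :=
    (pow_le_pow_of_le_one (by norm_num) (by norm_num) hk2).trans hK₂.le
  have hL := main_bound (n := n) (m := m) hθ0 hθ1 hθ2 rfl hx1 hx2 hβ1 hβ2
  have hn0 : (0 : ℝ) ≤ n := Nat.cast_nonneg _
  have hnl : l ≤ (δ / 4) * Real.log 2 * n := by
    have h1 : l / ((δ / 4) * Real.log 2) ≤ n :=
      (Nat.le_ceil _).trans (by exact_mod_cast hn1)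
    rw [div_le_iff₀ (by positivity)] at h1
    linarith
  have hR : Real.exp ((δ / 4) * n) ≤ θ ^ w * (2 : ℝ) ^ (δ * n) := by
    have h1 : θ ^ w = Real.exp (-(l * w)) := by
      rw [← Real.rpow_natCast, Real.rpow_def_of_pos hθ0]
      congr 1
      rw [hl]
      ring
    rw [h1, Real.rpow_def_of_pos (by norm_num), ← Real.exp_add]
    refine Real.exp_le_exp.2 ?_
    have h2 : l * w ≤ (δ / 4) * Real.log 2 * n + l := by
      calc l * w ≤ l * (η * n + 1) := mul_le_mul_of_nonneg_left hw hlpos.le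
        _ = (δ / 4) * Real.log 2 * n + l := by
          rw [hη]
          field_simp
    have h3 : (δ / 4) * n ≤ Real.log 2 * (δ * n) / 2 := by
      have : 0 ≤ δ * n := by positivity
      nlinarith
    nlinarith
  have hpow : (0 : ℝ) ≤ 2 ^ n := by positivity
  have hg0 : 0 ≤ guess n k m := by
    unfold guess
    have h1 : (0 : ℝ) ≤ (1 / 2) ^ n := by positivity
    have h2 : (0 : ℝ) ≤ (1 - (1 / 2) ^ k) ^ m := pow_nonneg (by linarith) _
    linarith
  calc (2 : ℝ) ^ n * (1 - (1 - θ) * β / 2 ^ k) ^ m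
      ≤ (2 : ℝ) ^ n * (Real.exp ((δ / 4) * n) * guess n k m) :=
        mul_le_mul_of_nonneg_left hL hpow
    _ ≤ (2 : ℝ) ^ n * ((θ ^ w * (2 : ℝ) ^ (δ * n)) * guess n k m) :=
        mul_le_mul_of_nonneg_left (mul_le_mul_of_nonneg_right hR hg0) hpow
    _ = θ ^ w * ((2 : ℝ) ^ (δ * n) * (2 ^ n * guess n k m)) := by ring

end Pool.Agent.H72.PL
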